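import Pool.Agent.Q54.FM.DegFin
import Pool.Agent.TH387.EX.Core

set_option autoImplicit false

/-!
# Degrees in which the equivalence holds for all numbers of points and all multiplicities

The equivalence of Q1 in degree `d` holds for EVERY number `r ≥ 10` of general points and EVERY multiplicity
`m ≥ 1`, for all `d` outside a set of degrees which contains at most the proportion `1 - 1 / 550` of

* the values `f(n)`, `n < M`, of ANY polynomial `f` with integer coefficients of degree between `1` and `K` whose leading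
  coefficient is at most `M ^ κ` (all intervals of length `M` wherever they are, arithmetic progressions with differences
  `≤ M ^ κ`, squares, `k`-th powers, ...),
* the numbers `b p + h`, `p ≤ M` prime, `p ≡ a mod q` with `|b|, q ≤ M ^ κ` (prime degrees, degrees `p + h` with `h` of any
  size, ...),

up to an error `M ^ (1 - κ)`; here `κ > 0` and the lower bound for `M` depend on `K` only. In particular this is true for
at least `M / 600` of the degrees `d < M` and for at least `π(M) / 600` of the prime degrees `d ≤ M`, for all large `M`.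

Proof. If the degree `d` is exceptional for `r < 37` and some `m`, then an integer lies in a window of length less than
`1 / 4` around `(d + 3 / 2) / √r - 1 / 2`; for `r ≥ 37`, for `r = 13, 21` and for the squares there are no exceptions
(starting files). The vectors `(d / √r)`, `r` in different square classes, are jointly uniformly distributed modulo one
along these sequences with a power saving. This follows from the bounds for exponential sums of the library of the team
(`Pool.Agent.Q29.Eqd`) and from a lower bound for integer linear forms in square roots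
(`Pool.Agent.Q54.FM.liou`). The 22 numbers `r < 37` which have to be considered lie in 20 square classes; for the two
pairs `12, 27` and `18, 32` the windows are compared numerically.
-/

namespace Pool.Agent.Results.MP_8707bd_ag.DegreesWithoutExceptions

open Pool.Agent.TH387.EX

/-- For `r` general points `Y` (a nonempty open set) the scheme `m Y` is `AH₂(d)`, the equivalence of Q1 holds, and no form
exceptional for `Y` divides all elements of `[I_Y ^ (m)]_d` if this space is not zero. (`IsAH`, `Equivalence`,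
`IsExceptional`, `part` and `fat` are defined in `Pool.Agent.TH387.EX.Core` as in the problem file, for the points
`(Y i 0 : Y i 1 : 1)`.) -/
def At (r m d : ℕ) : Prop :=
  ∃ Φ : MvPolynomial (Fin r × Fin 2) ℂ, Φ ≠ 0 ∧ ∀ Y : Fin r → Fin 2 → ℂ,
    MvPolynomial.eval (fun ij : Fin r × Fin 2 => Y ij.1 ij.2) Φ ≠ 0 →
      IsAH Y m d ∧ Equivalence Y m d ∧
        (part (fat Y m) d ≠ ⊥ → ∀ F, IsExceptional Y F → ∃ G ∈ part (fat Y m) d, ¬ F ∣ G)

lemma at_of (r m d : ℕ) (hr : 10 ≤ r) (h : Pool.Agent.Q54.FM.ED r m d) : At r m d := by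
  obtain ⟨F, hF, hF'⟩ := h
  obtain ⟨Φ, hΦ, hΦ'⟩ := core hr (m := m) (S := {d}) ⟨F, hF, fun P hP e he => by
    rw [Set.mem_singleton_iff] at he
    rw [he]
    exact hF' P hP⟩
  refine ⟨Φ, hΦ, fun Y hY => ?_⟩
  obtain ⟨h1, _, h3⟩ := hΦ' Y hY
  exact ⟨(h1 d (Set.mem_singleton d)).1, (h1 d (Set.mem_singleton d)).2, h3 d⟩

/-- `SparseExceptions κ K M η P`: the property `P` fails rarely in polynomial sequences and along primes.
1. For every polynomial `f` with integer coefficients of degree between `1` and `K`, the leading coefficient being at most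
   `M ^ κ` in absolute value (the other coefficients are arbitrary), `P (f n)` fails for at most
   `η M + M ^ (1 - κ)` of the natural numbers `n < M` with `f n > 0`.
2. For all integers `b ≠ 0` and `h` and natural numbers `q ≥ 1` and `a`, `|b|, q ≤ M ^ κ`, `P (b p + h)` fails for at most
   `η T + M ^ (1 - κ)` of the `T` primes `p ≤ M` with `p ≡ a mod q` (only those with `b p + h > 0` are counted). -/
def SparseExceptions (κ : ℝ) (K M : ℕ) (η : ℝ) (P : ℕ → Prop) : Prop :=
  (∀ f : Polynomial ℤ, 1 ≤ f.natDegree → f.natDegree ≤ K → |(f.leadingCoeff : ℝ)| ≤ (M : ℝ) ^ κ →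
    ({n : ℕ | n < M ∧ 0 < f.eval (n : ℤ) ∧ ¬ P (f.eval (n : ℤ)).toNat}.ncard : ℝ) ≤
      η * M + (M : ℝ) ^ (1 - κ)) ∧
  (∀ b h : ℤ, b ≠ 0 → |(b : ℝ)| ≤ (M : ℝ) ^ κ → ∀ q a : ℕ, 1 ≤ q → (q : ℝ) ≤ (M : ℝ) ^ κ →
    ({p : ℕ | p ≤ M ∧ p.Prime ∧ p ≡ a [MOD q] ∧ 0 < b * p + h ∧ ¬ P (b * p + h).toNat}.ncard : ℝ) ≤
      η * ({p : ℕ | p ≤ M ∧ p.Prime ∧ p ≡ a [MOD q]}.ncard : ℝ) + (M : ℝ) ^ (1 - κ))

/-- 1. For every `K` there are `0 < κ ≤ 1` and `M₀` such that for all `M ≥ M₀` the degrees `d` for which `At r m d` holds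
for ALL `r ≥ 10` and ALL `m ≥ 1` have the proportion at least `1 / 550` in all the sequences of `SparseExceptions`, up to
`M ^ (1 - κ)`.
2. For all large `M` these are at least `M / 600` of the degrees `d < M`.
3. For all large `M` these are at least `π(M) / 600` of the prime degrees `d ≤ M`. -/
theorem result :
    (∀ K : ℕ, ∃ κ : ℝ, 0 < κ ∧ κ ≤ 1 ∧ ∃ M₀ : ℕ, ∀ M : ℕ, M₀ ≤ M →
      SparseExceptions κ K M (1 - 1 / 550) (fun d => ∀ r : ℕ, 10 ≤ r → ∀ m : ℕ, 1 ≤ m → At r m d)) ∧
    (∃ M₁ : ℕ, ∀ M : ℕ, M₁ ≤ M →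
      1 / 600 * (M : ℝ) ≤ ({d : ℕ | d < M ∧ 0 < d ∧ ∀ r : ℕ, 10 ≤ r → ∀ m : ℕ, 1 ≤ m → At r m d}.ncard : ℝ)) ∧
    (∃ M₁ : ℕ, ∀ M : ℕ, M₁ ≤ M →
      1 / 600 * (Nat.primeCounting M : ℝ) ≤
        ({p : ℕ | p ≤ M ∧ p.Prime ∧ ∀ r : ℕ, 10 ≤ r → ∀ m : ℕ, 1 ≤ m → At r m p}.ncard : ℝ)) := by
  have hD : Pool.Agent.Q54.FM.DInputs fun r d => ∀ m : ℕ, 1 ≤ m → At r m d :=
    Pool.Agent.Q54.FM.dinputs.mono fun r d hr _ h m hm => at_of r m d hr (h m hm)
  obtain ⟨h1, h2⟩ := Pool.Agent.Q54.FM.density_of_sparse' (c := 1 / 550) (c' := 1 / 600) (by norm_num) _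
    (Pool.Agent.Q54.FM.all_degrees _ hD 1)
  refine ⟨fun K => ?_, h1, h2⟩
  obtain ⟨κ, hκ, hκ1, M₀, -, h'⟩ := Pool.Agent.Q54.FM.all_degrees _ hD K
  exact ⟨κ, hκ, hκ1, M₀, h'⟩

end Pool.Agent.Results.MP_8707bd_ag.DegreesWithoutExceptions
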