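import Mathlib
import Pool.Agent.TH387.EX.Core
import Pool.Agent.TH864.SX.Eleven
import Pool.Agent.TH469.SX.Fifteen

set_option autoImplicit false

/-!
# The equivalence of Q1 for eleven and for fifteen points, all multiplicities

Let `r = 11` or `r = 15`, and `m ≥ 1`. For a general set `Y` of `r` points of the complex projective
plane the scheme `m Y` is `AH₂(d)` and the equivalence of Q1 holds
* in every degree `d` which is not divisible by three, or with `d < √r m` or `√r (2 m + 1) ≤ 2 d + 3`;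
* in EVERY degree `d`, if there is no multiple `3 k` of three with `√r m ≤ 3 k` and
  `6 k + 3 < √r (2 m + 1)` (an interval of length `(√r - 3) / 2`, which is less than `0.16` for `r = 11`
  and less than `0.44` for `r = 15`).
No form exceptional for `Y` divides all elements of `[I_Y ^ (m)]_d` when this space is not zero.
-/

namespace Pool.Agent.Results.MP_8707bd_ag.ElevenFifteenPoints

open MvPolynomial Pool.Agent.TH387.EX

theorem result : ∀ r : ℕ, (r = 11 ∨ r = 15) → ∀ m : ℕ, 1 ≤ m →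
    ∃ Φ : MvPolynomial (Fin r × Fin 2) ℂ, Φ ≠ 0 ∧ ∀ Y : Fin r → Fin 2 → ℂ,
      MvPolynomial.eval (fun ij : Fin r × Fin 2 => Y ij.1 ij.2) Φ ≠ 0 →
        (∀ d : ℕ, (¬ 3 ∣ d ∨ (d : ℝ) < √(r : ℝ) * m ∨ √(r : ℝ) * (2 * m + 1) ≤ 2 * d + 3) →
          IsAH Y m d ∧ Equivalence Y m d) ∧
        ((∀ k : ℕ, ¬ (√(r : ℝ) * m ≤ 3 * k ∧ 6 * (k : ℝ) + 3 < √(r : ℝ) * (2 * m + 1))) →
          ∀ d : ℕ, IsAH Y m d ∧ Equivalence Y m d) ∧
        ∀ d : ℕ, part (fat Y m) d ≠ ⊥ → ∀ F, IsExceptional Y F →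
          ∃ G ∈ part (fat Y m) d, ¬ F ∣ G := by
  intro r hr m hm
  have hr10 : 10 ≤ r := by omega
  have h : ∃ F : MvPolynomial (Fin r × Fin 2) ℚ, F ≠ 0 ∧ ∀ P : Fin r → Fin 2 → ℂ,
      MvPolynomial.aeval (fun ij : Fin r × Fin 2 => P ij.1 ij.2) F ≠ 0 →
      ∀ d ∈ {d : ℕ | ¬ 3 ∣ d ∨ (d : ℝ) < √(r : ℝ) * m ∨ √(r : ℝ) * (2 * m + 1) ≤ 2 * d + 3},
        Pool.Agent.H932R3.ExpDim ℂ (fun _ => m) P d := by
    rcases hr with rfl | rfl
    · obtain ⟨F, hF, hF'⟩ := TH864.SX.uniform11 m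
      exact ⟨F, hF, fun P hP d hd => hF' P hP d (by
        simp only [Set.mem_setOf_eq] at hd
        push_cast at hd
        exact hd)⟩
    · obtain ⟨F, hF, hF'⟩ := TH469.SX.fifteen m
      exact ⟨F, hF, fun P hP d hd => hF' P hP d (by
        simp only [Set.mem_setOf_eq] at hd
        push_cast at hd
        exact hd)⟩
  obtain ⟨Φ, hΦ, hΦ'⟩ := core hr10 h
  refine ⟨Φ, hΦ, fun Y hY => ?_⟩
  obtain ⟨h1, _, h3⟩ := hΦ' Y hY
  refine ⟨fun d hd => h1 d hd, fun hk d => ?_, h3⟩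
  by_cases hd : ¬ 3 ∣ d ∨ (d : ℝ) < √(r : ℝ) * m ∨ √(r : ℝ) * (2 * m + 1) ≤ 2 * d + 3
  · exact h1 d hd
  · exfalso
    push Not at hd
    obtain ⟨⟨k, rfl⟩, hd1, hd2⟩ := hd
    push_cast at hd1 hd2
    exact hk k ⟨hd1, by linarith⟩

end Pool.Agent.Results.MP_8707bd_ag.ElevenFifteenPoints
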